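import Pool.Agent.V8H64.X49.Mat

/-!
# The number of the diagonals and of the borderings with a given corank
-/

set_option autoImplicit false
set_option linter.unusedSectionVars false
set_option linter.style.haveILetI false

namespace Pool.Agent.V8H64.X49

open Finset Matrix
open Q283.TW (bord sum_det)
open Pool.Agent.Results.MP_4a9ea6_nt.TwoPartTwistsX49 (Adm mat split nonsq nonfourth)

section
variable {n : Type} [Fintype n] [DecidableEq n] (A : Matrix n n (ZMod 2))

/-- the number of the diagonals with corank `r` -/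
noncomputable def ca (r : ℕ) : ℕ := Nat.card {v : n → ZMod 2 // cork (A + diagonal v) = r}

/-- the number of the borderings with corank `r` -/
noncomputable def cb (r : ℕ) : ℕ := Nat.card {x : (n → ZMod 2) × ZMod 2 // cork (bord A x.1 x.2) = r}

theorem cork_le {m : Type} [Fintype m] [DecidableEq m] (B : Matrix m m (ZMod 2)) :
    cork B ≤ Fintype.card m := Nat.sub_le _ _

theorem ca_sum : ∑ r ∈ Finset.range (Fintype.card n + 2), ca A r = 2 ^ Fintype.card n := by
  have h1 : Nat.card (n → ZMod 2) = 2 ^ Fintype.card n := by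
    rw [Nat.card_fun]
    simp
  have h2 := Finset.card_eq_sum_card_fiberwise (s := (Finset.univ : Finset (n → ZMod 2)))
    (f := fun v : n → ZMod 2 => cork (A + diagonal v))
    (t := Finset.range (Fintype.card n + 2)) (fun v _ => by
      rw [Finset.mem_coe, Finset.mem_range]
      have := cork_le (A + diagonal v)
      show cork (A + diagonal v) < _
      omega)
  rw [← h1, Nat.card_eq_fintype_card, ← Finset.card_univ (α := n → ZMod 2), h2]
  refine Finset.sum_congr rfl fun r _ => ?_
  unfold ca
  rw [Nat.card_eq_fintype_card, Fintype.card_subtype]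

theorem cb_sum : ∑ r ∈ Finset.range (Fintype.card n + 2), cb A r = 2 ^ (Fintype.card n + 1) := by
  have h1 : Nat.card ((n → ZMod 2) × ZMod 2) = 2 ^ (Fintype.card n + 1) := by
    rw [Nat.card_prod, Nat.card_fun]
    simp
    ring
  have h2 := Finset.card_eq_sum_card_fiberwise (s := (Finset.univ : Finset ((n → ZMod 2) × ZMod 2)))
    (f := fun x : (n → ZMod 2) × ZMod 2 => cork (bord A x.1 x.2))
    (t := Finset.range (Fintype.card n + 2)) (fun x _ => by
      rw [Finset.mem_coe, Finset.mem_range]
      have := cork_le (bord A x.1 x.2)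
      rw [Fintype.card_sum, Fintype.card_unit] at this
      show cork (bord A x.1 x.2) < _
      omega)
  rw [← h1, Nat.card_eq_fintype_card, ← Finset.card_univ (α := (n → ZMod 2) × ZMod 2), h2]
  refine Finset.sum_congr rfl fun r _ => ?_
  unfold cb
  rw [Nat.card_eq_fintype_card, Fintype.card_subtype]

theorem odd_of_sum {X : Type} [Fintype X] (f : X → ZMod 2) (h : ∑ x, f x = 1) :
    Odd (Nat.card {x : X // f x ≠ 0}) := by
  classical
  have h1 : ∑ x, f x = ((Finset.univ.filter fun x => f x ≠ 0).card : ZMod 2) := by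
    rw [Finset.card_filter, Nat.cast_sum]
    refine Finset.sum_congr rfl fun x _ => ?_
    have : ∀ y : ZMod 2, y = ((if y ≠ 0 then 1 else 0 : ℕ) : ZMod 2) := by decide
    exact this _
  rw [Nat.card_eq_fintype_card, Fintype.card_subtype, ← ZMod.natCast_eq_one_iff_odd, ← h1, h]

theorem ca_odd : Odd (ca A 0) := by
  have h := odd_of_sum (fun v : n → ZMod 2 => (A + diagonal v).det) (sum_det A)
  unfold ca
  simp only [cork_zero]
  exact h

theorem bord_det (v : n → ZMod 2) (d : ZMod 2) :
    (bord A v (d + 1)).det = (bord A v d).det + (A + diagonal v).det := by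
  have e1 : bord A v (d + 1) = (bord A v d).updateRow (Sum.inr ())
      (bord A v d (Sum.inr ()) + Pi.single (Sum.inr ()) 1) := by
    ext i j
    rcases i with i | i
    · rw [updateRow_ne (by simp)]
      rcases j with j | j <;> rfl
    · rw [show (Sum.inr i : n ⊕ Unit) = Sum.inr () from rfl, updateRow_self, Pi.add_apply]
      rcases j with j | j
      · rw [Pi.single_eq_of_ne (by simp), add_zero]
        rfl
      · rw [show (Sum.inr j : n ⊕ Unit) = Sum.inr () from rfl, Pi.single_eq_same]
        rfl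
  rw [e1, det_updateRow_add, updateRow_eq_self]
  congr 1
  have e2 : (bord A v d).updateRow (Sum.inr ()) (Pi.single (Sum.inr ()) 1) =
      fromBlocks (A + diagonal v) (Matrix.of fun i (_ : Unit) => v i) 0 1 := by
    ext i j
    rcases i with i | i
    · rw [updateRow_ne (by simp)]
      rcases j with j | j <;> rfl
    · rw [show (Sum.inr i : n ⊕ Unit) = Sum.inr () from rfl, updateRow_self]
      rcases j with j | j
      · rw [Pi.single_eq_of_ne (by simp), fromBlocks_apply₂₁]
        rfl
      · rw [show (Sum.inr j : n ⊕ Unit) = Sum.inr () from rfl, Pi.single_eq_same,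
          fromBlocks_apply₂₂, Matrix.one_apply_eq]
  rw [e2, det_fromBlocks_zero₂₁, det_one, mul_one]

theorem cb_odd : Odd (cb A 0) := by
  have h := odd_of_sum (fun x : (n → ZMod 2) × ZMod 2 => (bord A x.1 x.2).det) (by
    rw [Fintype.sum_prod_type, ← sum_det A]
    refine Finset.sum_congr rfl fun v _ => ?_
    show ∑ d, (bord A v d).det = _
    rw [Q283.TW.sum_zmod2]
    have := bord_det A v 0
    rw [zero_add] at this
    rw [this, ← add_assoc, CharTwo.add_self_eq_zero, zero_add])
  unfold cb
  simp only [cork_zero]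
  exact h

end

section
variable {S R : Finset ℕ} (hSR : S ⊆ R)

/-- the splitting of the vectors -/
noncomputable def eqR : (R → ZMod 2) ≃ (S → ZMod 2) × ({r : R // ¬ (r : ℕ) ∈ S} → ZMod 2) :=
  (Equiv.piEquivPiSubtypeProd (fun r : R => (r : ℕ) ∈ S) fun _ => ZMod 2).trans
    (Equiv.prodCongr (Equiv.piCongrLeft' (fun _ => ZMod 2)
      { toFun := fun r => ⟨r.1.1, r.2⟩
        invFun := fun s => ⟨⟨s.1, hSR s.2⟩, s.2⟩
        left_inv := fun _ => rfl
        right_inv := fun _ => rfl }) (Equiv.refl _))

theorem eqR_fst (v : R → ZMod 2) (s : S) : (eqR hSR v).1 s = v ⟨s, hSR s.2⟩ := rfl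

include hSR in
theorem card_rest : Nat.card ({r : R // ¬ (r : ℕ) ∈ S} → ZMod 2) = 2 ^ (R.card - S.card) := by
  rw [Nat.card_fun]
  have h1 : Nat.card {r : R // ¬ (r : ℕ) ∈ S} = R.card - S.card := by
    have e : Nat.card {r : R // ¬ (r : ℕ) ∈ S} = Nat.card (R \ S : Finset ℕ) :=
      Nat.card_congr
        { toFun := fun r => ⟨r.1.1, Finset.mem_sdiff.2 ⟨r.1.2, r.2⟩⟩
          invFun := fun r => ⟨⟨r.1, (Finset.mem_sdiff.1 r.2).1⟩, (Finset.mem_sdiff.1 r.2).2⟩
          left_inv := fun r => rfl
          right_inv := fun r => rfl }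
    rw [e, Nat.card_eq_fintype_card, Fintype.card_coe, Finset.card_sdiff_of_subset hSR]
  rw [h1]
  simp

include hSR in
theorem count_i (P : (S → ZMod 2) → Prop) :
    Nat.card {v : R → ZMod 2 // P fun s => v ⟨s, hSR s.2⟩} =
      Nat.card {u : S → ZMod 2 // P u} * 2 ^ (R.card - S.card) := by
  rw [← card_rest hSR, ← Nat.card_prod]
  refine Nat.card_congr (((eqR hSR).subtypeEquiv (q := fun y => P y.1) fun v => Iff.rfl).trans
    { toFun := fun y => (⟨y.1.1, y.2⟩, y.1.2)
      invFun := fun y => ⟨(y.1.1, y.2), y.1.2⟩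
      left_inv := fun y => rfl
      right_inv := fun y => rfl })

include hSR in
theorem count_s (P : (S → ZMod 2) × ZMod 2 → Prop) :
    Nat.card {v : (R → ZMod 2) × ZMod 2 // P (fun s => v.1 ⟨s, hSR s.2⟩, v.2 + ∑ r, v.1 r)} =
      Nat.card {u : (S → ZMod 2) × ZMod 2 // P u} * 2 ^ (R.card - S.card) := by
  rw [← card_rest hSR, ← Nat.card_prod]
  let σ : (R → ZMod 2) × ZMod 2 ≃ (R → ZMod 2) × ZMod 2 :=
    { toFun := fun v => (v.1, v.2 + ∑ r, v.1 r)
      invFun := fun v => (v.1, v.2 - ∑ r, v.1 r)
      left_inv := fun v => Prod.ext rfl (add_sub_cancel_right _ _)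
      right_inv := fun v => Prod.ext rfl (sub_add_cancel _ _) }
  refine Nat.card_congr ((σ.subtypeEquiv (q := fun y => P (fun s => y.1 ⟨s, hSR s.2⟩, y.2))
    fun v => Iff.rfl).trans (((Equiv.prodCongr (eqR hSR) (Equiv.refl _)).subtypeEquiv
      (q := fun y => P (y.1.1, y.2)) fun v => Iff.rfl).trans
    { toFun := fun y => (⟨(y.1.1.1, y.1.2), y.2⟩, y.1.1.2)
      invFun := fun y => ⟨((y.1.1.1, y.2), y.1.1.2), y.1.2⟩
      left_inv := fun y => rfl
      right_inv := fun y => rfl }))

end

end Pool.Agent.V8H64.X49
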