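import Pool.Agent.V8H64.X49.Frob
import Pool.Agent.V8H64.X49.Count

/-!
# The law of the coranks of the prime twists of one member
-/

set_option autoImplicit false
set_option linter.unusedSectionVars false
set_option linter.style.haveILetI false

namespace Pool.Agent.V8H64.X49

open Finset Matrix
open Q283.TW (bord)
open Pool.Agent.Results.MP_4a9ea6_nt.TwoPartTwistsX49 (Adm mat split nonsq nonfourth)

theorem pr_pf {D : ℕ} (hD : Adm D) : PR D.primeFactors := fun p hp =>
  ⟨Nat.prime_of_mem_primeFactors hp, hD.2 p hp⟩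

theorem split_subset (D : ℕ) : split D ⊆ D.primeFactors := fun _ h => split_sub h

/-- the primes of the family that do not divide `D` -/
def New (D l : ℕ) : Prop := l.Prime ∧ l % 4 = 1 ∧ ¬ l ∣ D


/-- the value of the corank from the symbols, inert primes -/
noncomputable def fi (D : ℕ) {R : Finset ℕ} (hR : D.primeFactors ⊆ R) (v : R → ZMod 2) : ℕ :=
  cork (mat D + diagonal fun s : split D => v ⟨s, hR (split_sub s.2)⟩)

/-- the value of the corank from the symbols, split primes -/
noncomputable def fs (D : ℕ) {R : Finset ℕ} (hR : D.primeFactors ⊆ R)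
    (v : (R → ZMod 2) × ZMod 2) : ℕ :=
  cork (bord (mat D) (fun s : split D => v.1 ⟨s, hR (split_sub s.2)⟩)
    (v.2 + ∑ q : D.primeFactors, v.1 ⟨q, hR q.2⟩))

theorem cork_fi {D : ℕ} (hD : Adm D) {R : Finset ℕ} (hR : D.primeFactors ⊆ R) {l : ℕ}
    (hl : l.Prime) (h4 : l % 4 = 1) (hlD : ¬ l ∣ D) (hi : ¬ IsSquare (-7 : ZMod l)) :
    cork (mat (D * l)) = fi D hR fun r => nonsq l r := by
  rw [cork_inert hD hl hlD hi]
  unfold fi
  congr 3
  funext s
  exact nonsq_symm (Nat.prime_of_mem_primeFactors (split_sub s.2)) hl (hD.2 s (split_sub s.2)) h4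

theorem cork_fs {D : ℕ} (hD : Adm D) {R : Finset ℕ} (hR : D.primeFactors ⊆ R) {l : ℕ}
    (hl : l.Prime) (h4 : l % 4 = 1) (hlD : ¬ l ∣ D) (hi : IsSquare (-7 : ZMod l)) :
    cork (mat (D * l)) = fs D hR (fun r => nonsq l r, nonfourth l) := by
  rw [cork_split hD hl h4 hlD hi]
  unfold fs
  have e1 : vv D l = fun s : split D => nonsq l s := funext fun s =>
    nonsq_symm (Nat.prime_of_mem_primeFactors (split_sub s.2)) hl (hD.2 s (split_sub s.2)) h4
  have e2 : dd D l = nonfourth l + ∑ q : D.primeFactors, nonsq l q := by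
    unfold dd
    rw [Finset.sum_coe_sort D.primeFactors fun q => nonsq l q]
  rw [e1, e2]

theorem not_mem_iff {D l : ℕ} (hD : D ≠ 0) (hl : l.Prime) : l ∉ D.primeFactors ↔ ¬ l ∣ D := by
  rw [Nat.mem_primeFactors]
  constructor
  · intro h h1
    exact h ⟨hl, h1, hD⟩
  · intro h h1
    exact h h1.2.1

/-- the event for one member -/
theorem ev_one {D : ℕ} (hD : Adm D) (P : ℕ → Prop) {l : ℕ} (hl : l.Prime) :
    Ev D.primeFactors (fun v => P (fi D (Finset.Subset.refl _) v))
      (fun v => P (fs D (Finset.Subset.refl _) v)) l ↔ New D l ∧ P (cork (mat (D * l))) := by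
  unfold Ev New
  rw [not_mem_iff hD.1.ne_zero hl]
  constructor
  · rintro ⟨a1, a2, a3, a4⟩
    refine ⟨⟨hl, a1, a2⟩, ?_⟩
    by_cases hi : IsSquare (-7 : ZMod l)
    · rw [cork_fs hD (Finset.Subset.refl _) hl a1 a2 hi]
      exact a4 hi
    · rw [cork_fi hD (Finset.Subset.refl _) hl a1 a2 hi]
      exact a3 hi
  · rintro ⟨⟨-, a1, a2⟩, a3⟩
    refine ⟨a1, a2, fun hi => ?_, fun hi => ?_⟩
    · rw [cork_fi hD (Finset.Subset.refl _) hl a1 a2 hi] at a3
      exact a3
    · rw [cork_fs hD (Finset.Subset.refl _) hl a1 a2 hi] at a3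
      exact a3

/-- the number in the law -/
noncomputable def cc (D r : ℕ) : ℕ := 2 * ca (mat D) r + cb (mat D) r

theorem card_fi (D : ℕ) (P : ℕ → Prop) :
    Nat.card {v : D.primeFactors → ZMod 2 // P (fi D (Finset.Subset.refl _) v)} =
      Nat.card {u : split D → ZMod 2 // P (cork (mat D + diagonal u))} *
        2 ^ (D.primeFactors.card - (split D).card) :=
  count_i (split_subset D) fun u => P (cork (mat D + diagonal u))

theorem card_fs (D : ℕ) (P : ℕ → Prop) :
    Nat.card {v : (D.primeFactors → ZMod 2) × ZMod 2 // P (fs D (Finset.Subset.refl _) v)} =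
      Nat.card {u : (split D → ZMod 2) × ZMod 2 // P (cork (bord (mat D) u.1 u.2))} *
        2 ^ (D.primeFactors.card - (split D).card) :=
  count_s (split_subset D) fun u => P (cork (bord (mat D) u.1 u.2))

/-- **the law** -/
theorem law {D : ℕ} (hD : Adm D) (r : ℕ) :
    HasDensity (fun l => New D l ∧ cork (mat (D * l)) = r)
      ((cc D r : ℝ) / 2 ^ ((split D).card + 3)) := by
  have h := dens_ev (pr_pf hD) (fun v => fi D (Finset.Subset.refl _) v = r)
    (fun v => fs D (Finset.Subset.refl _) v = r)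
  have h1 := card_fi D (fun m => m = r)
  have h2 := card_fs D (fun m => m = r)
  rw [h1, h2] at h
  have hle : (split D).card ≤ D.primeFactors.card := Finset.card_le_card (split_subset D)
  obtain ⟨m, hm⟩ := Nat.exists_eq_add_of_le hle
  have e : (cc D r : ℝ) / 2 ^ ((split D).card + 3) =
      ((Nat.card {u : split D → ZMod 2 // cork (mat D + diagonal u) = r} *
        2 ^ (D.primeFactors.card - (split D).card) : ℕ) : ℝ) / 2 ^ (D.primeFactors.card + 2) +
      ((Nat.card {u : (split D → ZMod 2) × ZMod 2 // cork (bord (mat D) u.1 u.2) = r} *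
        2 ^ (D.primeFactors.card - (split D).card) : ℕ) : ℝ) / 2 ^ (D.primeFactors.card + 3) := by
    rw [hm, Nat.add_sub_cancel_left]
    unfold cc ca cb
    push_cast
    rw [show (split D).card + m + 2 = (split D).card + 2 + m by ring,
      show (split D).card + m + 3 = (split D).card + 3 + m by ring, pow_add _ _ m, pow_add _ _ m]
    have h3 : (2 : ℝ) ^ m ≠ 0 := by positivity
    rw [mul_div_mul_right _ _ h3, mul_div_mul_right _ _ h3, pow_succ (2 : ℝ) ((split D).card + 2)]
    field_simp
  rw [e]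
  exact h.congr fun l hl => ev_one hD (fun m => m = r) hl

theorem cc_odd (D : ℕ) : Odd (cc D 0) := (even_two_mul _).add_odd (cb_odd (mat D))

theorem cc_three (D : ℕ) : 3 ≤ cc D 0 := by
  have h1 : 0 < ca (mat D) 0 := (ca_odd (mat D)).pos
  have h2 : 0 < cb (mat D) 0 := (cb_odd (mat D)).pos
  unfold cc
  omega

theorem cc_sum (D : ℕ) : ∑ r ∈ Finset.range ((split D).card + 2), cc D r =
    2 ^ ((split D).card + 2) := by
  have h1 := ca_sum (mat D)
  have h2 := cb_sum (mat D)
  rw [Fintype.card_coe] at h1 h2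
  unfold cc
  rw [Finset.sum_add_distrib, ← Finset.mul_sum, h1, h2]
  ring

end Pool.Agent.V8H64.X49
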