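import Mathlib

/-!
# The weak conjecture of Birch and Swinnerton-Dyer, the case that both sides are false
-/

set_option autoImplicit false

namespace Pool.Agent.V8H64

/-- The Euler factor of `y² = x³ + A x + B` at `p`. -/
noncomputable def fac (A B : ℤ) (s : ℂ) (p : ℕ) : ℂ :=
  ((1 : ℂ) - ((((p : ℤ) - (Nat.card {q : ZMod p × ZMod p //
      q.2 ^ 2 = q.1 ^ 3 + (A : ZMod p) * q.1 + (B : ZMod p)} : ℤ)) : ℤ) : ℂ) * ((p : ℂ) ^ (-s)) +
    (p : ℂ) ^ (1 - 2 * s))⁻¹

/-- The weak conjecture for `y² = x³ + A x + B`, with both sides false: the discriminant is not zero, the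
Euler product over the primes `p ∤ 2 (4 A³ + 27 B²)` for `Re s > 3/2` extends to an entire function which
does not vanish at `1`, and the curve has finitely many rational points. -/
def WeakRankZero (A B : ℤ) : Prop :=
  4 * A ^ 3 + 27 * B ^ 2 ≠ 0 ∧
  (∃ f : ℂ → ℂ, Differentiable ℂ f ∧
    (∀ s : ℂ, (3 : ℝ) / 2 < s.re →
      HasProd (fun p : {p : ℕ // p.Prime ∧ ¬ ((p : ℤ) ∣ 2 * (4 * A ^ 3 + 27 * B ^ 2))} =>
        fac A B s p.1) (f s)) ∧ f 1 ≠ 0) ∧
  {q : ℚ × ℚ | q.2 ^ 2 = q.1 ^ 3 + (A : ℚ) * q.1 + (B : ℚ)}.Finite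

theorem hasProd_sub {G : ℕ → Prop} [DecidablePred G] {H : ℕ → ℂ} {a : ℂ}
    (h : HasProd (fun p : Nat.Primes => if G p then H p else 1) a) :
    HasProd (fun p : {p : ℕ // p.Prime ∧ G p} => H p) a := by
  have hι : Function.Injective (fun p : {p : ℕ // p.Prime ∧ G p} => (⟨p.1, p.2.1⟩ : Nat.Primes)) := by
    intro p q hpq
    exact Subtype.ext (Subtype.mk.inj hpq)
  have h1 := (hι.hasProd_iff (f := fun p : Nat.Primes => if G p then H p else 1) (a := a) (by
    intro x hx
    exact if_neg fun hG => hx ⟨⟨x.1, x.2, hG⟩, rfl⟩)).2 h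
  have e : ((fun p : Nat.Primes => if G p then H p else 1) ∘
      fun p : {p : ℕ // p.Prime ∧ G p} => (⟨p.1, p.2.1⟩ : Nat.Primes)) =
      fun p : {p : ℕ // p.Prime ∧ G p} => H p := by
    funext p
    exact if_pos p.2.2
  rwa [e] at h1

/-- an entire function is determined by its values on a half-plane -/
theorem entire_unique {F G : ℂ → ℂ} (hF : Differentiable ℂ F) (hG : Differentiable ℂ G) {c : ℝ}
    (h : ∀ s : ℂ, c < s.re → F s = G s) : F = G := by
  have h1 : AnalyticOnNhd ℂ F Set.univ := fun z _ => hF.analyticAt z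
  have h2 : AnalyticOnNhd ℂ G Set.univ := fun z _ => hG.analyticAt z
  have hev : F =ᶠ[nhds ((c : ℂ) + 1)] G := by
    have ho : IsOpen {s : ℂ | c < s.re} := isOpen_lt continuous_const Complex.continuous_re
    filter_upwards [ho.mem_nhds (show ((c : ℂ) + 1) ∈ {s : ℂ | c < s.re} by
      show c < ((c : ℂ) + 1).re
      simp)] with s hs
    exact h s hs
  exact h1.eq_of_eventuallyEq h2 hev

end Pool.Agent.V8H64
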