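import Pool.Agent.V8H64.X49.Fld
import Pool.Agent.Q283.TW.Dens

/-!
# The symbols of a prime and its Frobenius elements; the density of the primes with given symbols
-/

set_option autoImplicit false
set_option linter.unusedSectionVars false
set_option linter.style.haveILetI false

namespace Pool.Agent.V8H64.X49

open NumberField Filter Topology Finset Pool.Agent.W401.Cheb
open Q283.TW (ng ng_mul mul_pm gal_sqrt frob_sqrt fixed_iff two_ne neg7_iff coe_smul')
open Pool.Agent.Results.MP_4a9ea6_nt.TwoPartTwistsX49 (nonsq nonfourth)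

theorem pow_four_mod {K : Type*} [Field K] (x : K) {p m : ℕ} (hm : p = 4 * m + 1) :
    x ^ p = (x ^ 4) ^ m * x := by
  rw [hm, pow_add, pow_mul, pow_one]

section
variable {L : Type} [Field L] [NumberField L] [IsGalois ℚ L] {p : ℕ} [hp : Fact p.Prime]
  {φ : 𝓞 L →+* AlgebraicClosure (ZMod p)} {g : Gal(L/ℚ)}

/-- **Frobenius and fourth roots.** -/
theorem frob_fourth (hφ : HasFrob p φ g) {t : L} (ht : (t ^ 2) ^ 2 = ((-7 : ℤ) : L))
    (hp4 : p % 4 = 1) (h7 : p ≠ 7) (hg : g t = t ∨ g t = -t) :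
    (∃ y : ZMod p, y ^ 4 = -7) ↔ g t = t := by
  have h2 : p ≠ 2 := by omega
  have hti : IsIntegral ℤ t := by
    have h : IsIntegral ℤ ((t ^ 2) ^ 2) := by
      rw [ht]
      exact isIntegral_algebraMap (R := ℤ) (x := (-7 : ℤ))
    exact IsIntegral.of_pow (by norm_num) (IsIntegral.of_pow (by norm_num) h)
  obtain ⟨T, hT⟩ : ∃ S : 𝓞 L, algebraMap (𝓞 L) L S = t := ⟨⟨t, hti⟩, rfl⟩
  have hinj : Function.Injective (algebraMap (𝓞 L) L) := RingOfIntegers.coe_injective
  have hT4 : T ^ 4 = ((-7 : ℤ) : 𝓞 L) := by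
    apply hinj
    rw [map_pow, map_intCast, hT, ← ht]
    ring
  have hφ4 : φ T ^ 4 = algebraMap (ZMod p) (AlgebraicClosure (ZMod p)) ((-7 : ℤ) : ZMod p) := by
    rw [← map_pow, hT4, map_intCast, map_intCast]
  have hn7 : (((-7 : ℤ) : ℤ) : ZMod p) ≠ 0 := by
    intro h
    rw [ZMod.intCast_zmod_eq_zero_iff_dvd] at h
    have h5 : p ∣ 7 := by
      have := Int.natAbs_dvd_natAbs.2 h
      simpa using this
    exact h7 ((Nat.prime_dvd_prime_iff_eq hp.out (by norm_num)).1 h5)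
  have hne : φ T ≠ 0 := by
    intro h
    rw [h, zero_pow (by norm_num)] at hφ4
    apply hn7
    apply Q283.TW.cast_inj
    rw [← hφ4, map_zero]
  constructor
  · rintro ⟨y, hy⟩
    rcases hg with h | h
    · exact h
    exfalso
    set Y := algebraMap (ZMod p) (AlgebraicClosure (ZMod p)) y with hY
    have hY4 : Y ^ 4 = φ T ^ 4 := by
      rw [hY, ← map_pow, hy, hφ4]
      push_cast
      rfl
    have hY0 : Y ≠ 0 := by
      intro h0
      rw [h0, zero_pow (by norm_num)] at hY4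
      exact pow_ne_zero 4 hne hY4.symm
    obtain ⟨m, hm⟩ : ∃ m, p = 4 * m + 1 := ⟨p / 4, by omega⟩
    have hYp : Y ^ p = Y := (fixed_iff _).2 ⟨y, rfl⟩
    have h1 : φ T ^ p = φ T := by
      have e1 : φ T ^ p = (φ T ^ 4) ^ m * φ T := pow_four_mod _ hm
      have e2 : (Y ^ 4) ^ m = 1 := by
        have e3 : Y ^ p = (Y ^ 4) ^ m * Y := pow_four_mod _ hm
        rw [hYp] at e3
        have e4 : ((Y ^ 4) ^ m - 1) * Y = 0 := by linear_combination -e3
        rcases mul_eq_zero.1 e4 with e5 | e5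
        · exact sub_eq_zero.1 e5
        · exact absurd e5 hY0
      rw [e1, ← hY4, e2, one_mul]
    have h5 : g • T = -T := by
      apply hinj
      rw [coe_smul', hT, h, map_neg, hT]
    have h6 := hφ T
    rw [h5, map_neg, h1] at h6
    have h8 : 2 * φ T = 0 := by linear_combination -h6
    rcases mul_eq_zero.1 h8 with h9 | h9
    · exact two_ne h2 h9
    · exact hne h9
  · intro h
    have h5 : g • T = T := by
      apply hinj
      rw [coe_smul', hT, h]
    have h6 := hφ T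
    rw [h5] at h6
    obtain ⟨z, hz⟩ := (fixed_iff _).1 h6.symm
    refine ⟨z, ?_⟩
    apply Q283.TW.cast_inj
    rw [map_pow, hz, hφ4]
    push_cast
    rfl

variable {R : Finset ℕ} (E : D2 L R)

/-- the event for a prime -/
def Ev (R : Finset ℕ) (Qi : (R → ZMod 2) → Prop) (Qs : (R → ZMod 2) × ZMod 2 → Prop) (l : ℕ) :
    Prop :=
  l % 4 = 1 ∧ l ∉ R ∧ (¬ IsSquare (-7 : ZMod l) → Qi fun r => nonsq l r) ∧
    (IsSquare (-7 : ZMod l) → Qs (fun r => nonsq l r, nonfourth l))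

/-- the product of the excluded primes -/
def bad (R : Finset ℕ) : ℕ := 14 * ∏ r ∈ R, r

theorem bad_pos {R : Finset ℕ} (hR : PR R) : 0 < bad R :=
  Nat.mul_pos (by norm_num) (Finset.prod_pos fun q hq => (hR q hq).1.pos)

theorem not_bad {R : Finset ℕ} {p : ℕ} (h : ¬ p ∣ bad R) :
    p ≠ 2 ∧ p ≠ 7 ∧ p ∉ R := by
  refine ⟨?_, ?_, fun hm => ?_⟩
  · rintro rfl
    exact h ((by norm_num : 2 ∣ 14).mul_right _)
  · rintro rfl
    exact h ((by norm_num : 7 ∣ 14).mul_right _)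
  · exact h ((Finset.dvd_prod_of_mem (fun r => r) hm).mul_left _)

theorem D2.frob_i (hφ : HasFrob p φ g) (h2 : p ≠ 2) : g E.i = E.i ↔ p % 4 = 1 := by
  rw [← frob_sqrt hφ E.hi h2 (by push_cast; exact neg_ne_zero.2 one_ne_zero)]
  push_cast
  rw [ZMod.exists_sq_eq_neg_one_iff]
  have := hp.out.eq_two_or_odd.resolve_left h2
  omega

theorem D2.frob_7 (hφ : HasFrob p φ g) (h2 : p ≠ 2) (h7 : p ≠ 7) :
    g (E.t ^ 2) = E.t ^ 2 ↔ IsSquare (-7 : ZMod p) := by
  have n7 : (((-7 : ℤ) : ℤ) : ZMod p) ≠ 0 := by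
    intro h
    rw [ZMod.intCast_zmod_eq_zero_iff_dvd] at h
    have h5 : p ∣ 7 := by
      have := Int.natAbs_dvd_natAbs.2 h
      simpa using this
    exact h7 ((Nat.prime_dvd_prime_iff_eq hp.out (by norm_num)).1 h5)
  rw [← frob_sqrt hφ E.ht h2 n7]
  push_cast
  exact Iff.rfl

theorem D2.frob_s (hR : PR R) (hφ : HasFrob p φ g) (h2 : p ≠ 2) {r : ℕ} (hr : r ∈ R)
    (hpr : p ∉ R) : ng g (E.s r) = nonsq p r := by
  have nr : (((r : ℤ) : ℤ) : ZMod p) ≠ 0 := by
    intro h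
    rw [ZMod.intCast_zmod_eq_zero_iff_dvd] at h
    have h5 : p ∣ r := by exact_mod_cast h
    exact hpr (((Nat.prime_dvd_prime_iff_eq hp.out (hR r hr).1).1 h5) ▸ hr)
  apply zmod2
  rw [ng_zero, ← frob_sqrt hφ (E.hs r hr) h2 nr]
  unfold nonsq
  push_cast
  constructor
  · intro h
    rw [if_pos h]
  · intro h
    by_contra h1
    rw [if_neg h1] at h
    exact absurd h (by decide)

theorem D2.frob_t (hφ : HasFrob p φ g) (h4 : p % 4 = 1) (h7 : p ≠ 7)
    (hg : g (E.t ^ 2) = E.t ^ 2) : ng g E.t = nonfourth p := by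
  apply zmod2
  rw [ng_zero, ← frob_fourth hφ E.ht h4 h7 (E.t_pm hg)]
  unfold nonfourth
  constructor
  · intro h
    rw [if_pos h]
  · intro h
    by_contra h1
    rw [if_neg h1] at h
    exact absurd h (by decide)

/-- the event is a property of the Frobenius elements -/
theorem D2.frob_ev (hR : PR R) (Qi : (R → ZMod 2) → Prop) (Qs : (R → ZMod 2) × ZMod 2 → Prop)
    (hb : ¬ p ∣ bad R) (hφ : HasFrob p φ g) : Ev R Qi Qs p ↔ g ∈ E.CC Qi Qs := by
  obtain ⟨h2, h7, hpR⟩ := not_bad hb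
  have e1 : (fun r : R => nonsq p r) = fun r : R => ng g (E.s r) :=
    funext fun r => (E.frob_s hR hφ h2 r.2 hpR).symm
  unfold Ev
  rw [e1]
  constructor
  · rintro ⟨a1, -, a3, a4⟩
    refine ⟨(E.frob_i hφ h2).2 a1, fun h => a3 fun h' => h ((E.frob_7 hφ h2 h7).2 h'), fun h => ?_⟩
    have h3 := a4 ((E.frob_7 hφ h2 h7).1 h)
    rwa [← E.frob_t hφ a1 h7 h] at h3
  · rintro ⟨a1, a3, a4⟩
    have a1' := (E.frob_i hφ h2).1 a1
    refine ⟨a1', hpR, fun h => a3 fun h' => h ((E.frob_7 hφ h2 h7).1 h'), fun h => ?_⟩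
    have h' := (E.frob_7 hφ h2 h7).2 h
    have h3 := a4 h'
    rwa [E.frob_t hφ a1' h7 h'] at h3

end

/-- the primes with the property `G` have the natural density `δ` in the set of all primes -/
def HasDensity (G : ℕ → Prop) (δ : ℝ) : Prop :=
  Tendsto (fun X : ℕ => ({l : ℕ | l ≤ X ∧ l.Prime ∧ G l}.ncard : ℝ) / (Nat.primeCounting X : ℝ))
    atTop (nhds δ)

open scoped Classical in
theorem dens_M {G : ℕ → Prop} {δ : ℝ} :
    HasDensity G δ ↔ Tendsto (M fun p => if G p then (1 : ℝ) else 0) atTop (𝓝 δ) := by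
  unfold HasDensity
  have e : (fun X : ℕ => ({l : ℕ | l ≤ X ∧ l.Prime ∧ G l}.ncard : ℝ) / (Nat.primeCounting X : ℝ)) =
      M fun p => if G p then (1 : ℝ) else 0 := by
    funext X
    unfold M
    congr 1
    rw [Finset.sum_boole]
    congr 1
    rw [← Set.ncard_coe_finset]
    congr 1
    ext l
    rw [Finset.mem_coe, Finset.mem_filter, mem_pr]
    show (l ≤ X ∧ l.Prime ∧ G l) ↔ _
    rw [and_assoc]
  rw [e]

theorem HasDensity.congr {G G' : ℕ → Prop} {δ : ℝ} (h : HasDensity G δ)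
    (hG : ∀ l : ℕ, l.Prime → (G l ↔ G' l)) : HasDensity G' δ := by
  refine Tendsto.congr (fun X => ?_) h
  congr 2
  congr 1
  ext l
  exact and_congr_right fun _ => and_congr_right fun hl => hG l hl

/-- **the density of the event** -/
theorem dens_ev {R : Finset ℕ} (hR : PR R) (Qi : (R → ZMod 2) → Prop)
    (Qs : (R → ZMod 2) × ZMod 2 → Prop) : HasDensity (Ev R Qi Qs)
      ((Nat.card {v // Qi v} : ℝ) / 2 ^ (R.card + 2) + (Nat.card {v // Qs v} : ℝ) / 2 ^ (R.card + 3)) := by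
  classical
  obtain ⟨L, _, _, _, ⟨E⟩⟩ := exists_d2 R
  rw [← E.ratio hR, dens_M]
  exact Q283.TW.dens_of L (E.CC Qi Qs) (Ev R Qi Qs) (bad R) (bad_pos hR)
    fun p _ hb φ g hφ => E.frob_ev hR Qi Qs hb hφ

end Pool.Agent.V8H64.X49
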