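import Pool.Agent.V8H64.X49.Gal
import Pool.Agent.Q283.TW.Field

/-!
# The fields with given square roots and a fourth root of `-7`
-/

set_option autoImplicit false
set_option linter.unusedSectionVars false
set_option linter.style.haveILetI false

namespace Pool.Agent.V8H64.X49

open Polynomial NumberField

/-- the polynomial of the square roots and of the fourth root -/
noncomputable def f2 (R : Finset ℕ) : ℚ[X] :=
  (X ^ 2 - C (-1 : ℚ)) * ((X ^ 4 - C (-7 : ℚ)) * ∏ r ∈ R, (X ^ 2 - C (r : ℚ)))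

theorem f2_ne (R : Finset ℕ) : f2 R ≠ 0 :=
  mul_ne_zero (X_pow_sub_C_ne_zero (by norm_num) _) (mul_ne_zero
    (X_pow_sub_C_ne_zero (by norm_num) _)
    (Finset.prod_ne_zero_iff.2 fun r _ => X_pow_sub_C_ne_zero (by norm_num) _))

theorem root_of {L : Type} [Field L] [Algebra ℚ L] {f : ℚ[X]} (hf : f ≠ 0)
    (hsp : (f.map (algebraMap ℚ L)).Splits) {n : ℕ} (hn : n ≠ 0) {a : ℚ}
    (hd : X ^ n - C a ∣ f) : ∃ x : L, x ^ n = algebraMap ℚ L a := by
  have hfm : f.map (algebraMap ℚ L) ≠ 0 := by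
    rwa [Ne, Polynomial.map_eq_zero]
  have h1 := hsp.of_dvd hfm (Polynomial.map_dvd _ hd)
  obtain ⟨x, hx⟩ := h1.exists_eval_eq_zero (by
    rw [Polynomial.degree_map, degree_X_pow_sub_C (Nat.pos_of_ne_zero hn)]
    intro h2
    exact hn (by exact_mod_cast h2))
  refine ⟨x, ?_⟩
  rw [Polynomial.map_sub, Polynomial.map_pow, map_X, map_C, eval_sub, eval_pow, eval_X, eval_C] at hx
  exact sub_eq_zero.1 hx

theorem d2_of {L : Type} [Field L] [NumberField L] [IsGalois ℚ L] {f : ℚ[X]} (hf : f ≠ 0)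
    (hsp : (f.map (algebraMap ℚ L)).Splits) {R : Finset ℕ} (hd : f2 R ∣ f) :
    Nonempty (D2 L R) := by
  classical
  obtain ⟨i, hi⟩ := root_of hf hsp (n := 2) (by norm_num) (a := -1)
    ((Dvd.intro _ rfl).trans hd)
  obtain ⟨t, ht⟩ := root_of hf hsp (n := 4) (by norm_num) (a := -7)
    (((Dvd.intro _ rfl : _ ∣ _).mul_left _).trans hd)
  have hs : ∀ r : ℕ, ∃ x : L, r ∈ R → x ^ 2 = algebraMap ℚ L (r : ℚ) := by
    intro r
    by_cases hr : r ∈ R
    · obtain ⟨x, hx⟩ := root_of hf hsp (n := 2) (by norm_num) (a := (r : ℚ))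
        ((((Finset.dvd_prod_of_mem (fun r : ℕ => (X ^ 2 - C (r : ℚ) : ℚ[X])) hr).mul_left _).mul_left
          _).trans hd)
      exact ⟨x, fun _ => hx⟩
    · exact ⟨0, fun h => absurd h hr⟩
  choose s hs' using hs
  refine ⟨⟨i, t, s, ?_, ?_, fun r hr => ?_⟩⟩
  · rw [hi]
    simp
  · rw [← pow_mul, ht]
    simp
  · rw [hs' r hr]
    simp

theorem exists_d2 (R : Finset ℕ) : ∃ (L : Type) (_ : Field L) (_ : NumberField L)
    (_ : IsGalois ℚ L), Nonempty (D2 L R) := by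
  obtain ⟨L, hL, hN, hG, hsp⟩ := Q283.TW.gen_split_rat (f2 R)
  exact ⟨L, hL, hN, hG, d2_of (f2_ne R) hsp dvd_rfl⟩

end Pool.Agent.V8H64.X49
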