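import Pool.Agent.V8H64.X49.Mat
import Pool.Agent.Q283.TW.Gal
import Pool.Agent.Q283.TW.Arith

/-!
# The action of the Galois group on the square roots of `-1`, of primes and on a fourth root of `-7`
-/

set_option autoImplicit false
set_option linter.unusedSectionVars false
set_option linter.style.haveILetI false

namespace Pool.Agent.V8H64.X49

open NumberField Filter Topology Finset Pool.Agent.W401.Cheb
open Q283.TW (ng ng_mul mul_pm gal_sqrt frob_sqrt fixed_iff cast_inj two_ne neg7_iff exists_nonres)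
open Pool.Agent.Results.MP_4a9ea6_nt.TwoPartTwistsX49 (nonsq nonfourth)

/-- primes `1` modulo `4` -/
def PR (R : Finset ℕ) : Prop := ∀ r ∈ R, r.Prime ∧ r % 4 = 1

theorem exists_res (a b : Prop) (c : ℕ) (hc : c = 1 ∨ c = 2) : ∃ k : ℕ, Nat.Coprime k 84 ∧
    k % 3 = c ∧ (k % 4 = 1 ↔ a) ∧ (k % 4 = 1 ∨ k % 4 = 3) ∧ (k % 7 = 1 ↔ b) ∧
      (k % 7 = 1 ∨ k % 7 = 3) := by
  by_cases ha : a <;> by_cases hb : b <;> rcases hc with rfl | rfl
  · exact ⟨1, by norm_num, by norm_num, by simp [ha], by norm_num, by simp [hb], by norm_num⟩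
  · exact ⟨29, by norm_num, by norm_num, by simp [ha], by norm_num, by simp [hb], by norm_num⟩
  · exact ⟨73, by norm_num, by norm_num, by simp [ha], by norm_num, by simp [hb], by norm_num⟩
  · exact ⟨17, by norm_num, by norm_num, by simp [ha], by norm_num, by simp [hb], by norm_num⟩
  · exact ⟨43, by norm_num, by norm_num, by simp [ha], by norm_num, by simp [hb], by norm_num⟩
  · exact ⟨71, by norm_num, by norm_num, by simp [ha], by norm_num, by simp [hb], by norm_num⟩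
  · exact ⟨31, by norm_num, by norm_num, by simp [ha], by norm_num, by simp [hb], by norm_num⟩
  · exact ⟨59, by norm_num, by norm_num, by simp [ha], by norm_num, by simp [hb], by norm_num⟩

/-- **primes with given symbols** -/
theorem exists_prime_data {R : Finset ℕ} (hR : PR R) (a b : Prop) (c : ℕ) (hc : c = 1 ∨ c = 2)
    (ε : ℕ → Prop) (B : ℕ) : ∃ p, B < p ∧ p.Prime ∧ p % 3 = c ∧ (p % 4 = 1 ↔ a) ∧
      (IsSquare (-7 : ZMod p) ↔ b) ∧ ∀ r ∈ R, (IsSquare (r : ZMod p) ↔ ε r) := by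
  classical
  obtain ⟨k0, hk0, hk3, hka, hk4, hkb, hk7⟩ := exists_res a b c hc
  have hex : ∀ r : ℕ, ∃ a : ℕ, (r ∈ R → (IsSquare (a : ZMod r) ↔ ε r) ∧ Nat.Coprime a r) := by
    intro r
    by_cases hr : r ∈ R
    · by_cases he : ε r
      · exact ⟨1, fun _ => ⟨⟨fun _ => he, fun _ => by simp⟩, Nat.coprime_one_left r⟩⟩
      · obtain ⟨a, ha⟩ := exists_nonres r (hR r hr).1 (by
          rintro rfl
          have := (hR 2 hr).2
          omega)
        refine ⟨a, fun _ => ⟨⟨fun h => absurd h ha, fun h => absurd h he⟩, ?_⟩⟩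
        rw [Nat.coprime_comm, (hR r hr).1.coprime_iff_not_dvd]
        intro h
        apply ha
        rw [(ZMod.natCast_eq_zero_iff a r).2 h]
        exact ⟨0, by simp⟩
    · exact ⟨0, fun h => absurd h hr⟩
  choose u hu using hex
  have h84 : 84 ∉ R := by
    intro h
    have := (hR 84 h).1
    norm_num at this
  set w : ℕ → ℕ := fun r => if r = 84 then k0 else u r with hw
  have h841 : ∀ r ∈ R, Nat.Coprime 84 r := by
    intro r hr
    obtain ⟨h1, h2⟩ := hR r hr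
    rw [Nat.coprime_comm, h1.coprime_iff_not_dvd]
    intro h
    have h4 : r ∣ 2 ^ 2 * (3 * 7) := by norm_num; exact h
    rcases (Nat.Prime.dvd_mul h1).1 h4 with h5 | h5
    · have := (Nat.prime_dvd_prime_iff_eq h1 Nat.prime_two).1 (h1.dvd_of_dvd_pow h5)
      omega
    · rcases (Nat.Prime.dvd_mul h1).1 h5 with h6 | h6
      · have := (Nat.prime_dvd_prime_iff_eq h1 Nat.prime_three).1 h6
        omega
      · have := (Nat.prime_dvd_prime_iff_eq h1 (by norm_num)).1 h6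
        omega
  have hpp : Set.Pairwise (↑(insert 84 R) : Set ℕ) (Function.onFun Nat.Coprime (fun r : ℕ => r)) := by
    intro x hx y hy hxy
    simp only [Finset.coe_insert, Set.mem_insert_iff, Finset.mem_coe] at hx hy
    show Nat.Coprime x y
    rcases hx with rfl | hx <;> rcases hy with rfl | hy
    · exact absurd rfl hxy
    · exact h841 y hy
    · exact (h841 x hx).symm
    · exact (Nat.coprime_primes (hR x hx).1 (hR y hy).1).2 hxy
  have hne : ∀ i ∈ insert 84 R, (fun r : ℕ => r) i ≠ 0 := by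
    intro i hi
    rw [Finset.mem_insert] at hi
    rcases hi with rfl | hi
    · norm_num
    · exact (hR i hi).1.ne_zero
  obtain ⟨k, hk⟩ := Nat.chineseRemainderOfFinset w (fun r => r) (insert 84 R) hne hpp
  set M := 84 * ∏ r ∈ R, r with hM
  have hM0 : M ≠ 0 := Nat.mul_ne_zero (by norm_num)
    (Finset.prod_ne_zero_iff.2 fun r hr => (hR r hr).1.ne_zero)
  have hk84 : k ≡ k0 [MOD 84] := by
    have := hk 84 (Finset.mem_insert_self _ _)
    simpa [hw] using this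
  have hkr : ∀ r ∈ R, k ≡ u r [MOD r] := by
    intro r hr
    have h1 := hk r (Finset.mem_insert_of_mem hr)
    have h2 : r ≠ 84 := by rintro rfl; exact h84 hr
    simpa [hw, h2] using h1
  have hkM : Nat.Coprime k M := by
    rw [hM]
    apply Nat.Coprime.mul_right
    · show Nat.gcd k 84 = 1
      rw [hk84.gcd_eq]
      exact hk0
    · apply Nat.Coprime.prod_right
      intro r hr
      show Nat.gcd k r = 1
      rw [(hkr r hr).gcd_eq]
      exact (hu r hr).2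
  obtain ⟨p, hpB, hp, hpk⟩ := Nat.forall_exists_prime_gt_and_modEq (max B (M + 7)) hM0 hkM
  have hpB1 : B < p := lt_of_le_of_lt (le_max_left _ _) hpB
  have hpM : M + 7 < p := lt_of_le_of_lt (le_max_right _ _) hpB
  have hp84 : p ≡ k0 [MOD 84] := (hpk.of_dvd ⟨∏ r ∈ R, r, hM⟩).trans hk84
  haveI : Fact p.Prime := ⟨hp⟩
  have e4 : p % 4 = k0 % 4 := hp84.of_dvd (by norm_num)
  have e3 : p % 3 = k0 % 3 := hp84.of_dvd (by norm_num)
  have e7 : p % 7 = k0 % 7 := hp84.of_dvd (by norm_num)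
  refine ⟨p, hpB1, hp, by rw [e3, hk3], by rw [e4]; exact hka, ?_, ?_⟩
  · rw [neg7_iff p (by omega) (by omega), ← hkb]
    omega
  · intro r hr
    haveI : Fact r.Prime := ⟨(hR r hr).1⟩
    have hpr : p ≡ u r [MOD r] :=
      (hpk.of_dvd (((Finset.dvd_prod_of_mem (fun r => r) hr)).mul_left 84)).trans (hkr r hr)
    have hp2 : p ≠ 2 := by omega
    rw [← ZMod.exists_sq_eq_prime_iff_of_mod_four_eq_one (hR r hr).2 hp2]
    have h1 : (p : ZMod r) = (u r : ZMod r) := (ZMod.natCast_eq_natCast_iff _ _ _).2 hpr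
    rw [h1]
    exact (hu r hr).1

/-- the data -/
structure D2 (L : Type) [Field L] [NumberField L] [IsGalois ℚ L] (R : Finset ℕ) where
  i : L
  t : L
  s : ℕ → L
  hi : i ^ 2 = ((-1 : ℤ) : L)
  ht : (t ^ 2) ^ 2 = ((-7 : ℤ) : L)
  hs : ∀ r ∈ R, s r ^ 2 = ((r : ℤ) : L)

section
variable {L : Type} [Field L] [NumberField L] [IsGalois ℚ L] {R : Finset ℕ} (E : D2 L R)
  (hR : PR R)

theorem ng_zero {g : Gal(L/ℚ)} {x : L} : ng g x = 0 ↔ g x = x := by
  unfold ng
  split_ifs with h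
  · exact ⟨fun _ => h, fun _ => rfl⟩
  · exact ⟨fun h1 => absurd h1 (by decide), fun h1 => absurd h1 h⟩

theorem zmod2 (a b : ZMod 2) (h : a = 0 ↔ b = 0) : a = b := by
  revert a b
  decide

theorem D2.i0 : E.i ≠ 0 := by
  intro h
  have := E.hi
  rw [h] at this
  norm_num at this

theorem D2.t0 : E.t ≠ 0 := by
  intro h
  have := E.ht
  rw [h] at this
  norm_num at this

theorem D2.t20 : E.t ^ 2 ≠ 0 := pow_ne_zero 2 E.t0

include hR in
theorem D2.s0 {r : ℕ} (h : r ∈ R) : E.s r ≠ 0 := by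
  intro h0
  have h1 := E.hs r h
  rw [h0, zero_pow (by norm_num)] at h1
  have h2 : ((r : ℕ) : L) = 0 := by exact_mod_cast h1.symm
  exact (hR r h).1.ne_zero (by exact_mod_cast h2)

/-- the homomorphism to the abelian symbols -/
noncomputable def D2.Θ : Gal(L/ℚ) →* Multiplicative (ZMod 2 × ZMod 2 × (R → ZMod 2)) where
  toFun g := Multiplicative.ofAdd (ng g E.i, ng g (E.t ^ 2), fun r : R => ng g (E.s r))
  map_one' := by
    have h : ∀ x : L, ng (1 : Gal(L/ℚ)) x = 0 := fun x => by unfold ng; simp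
    rw [← ofAdd_zero]
    congr 1
    simp only [h]
    rfl
  map_mul' g h := by
    rw [← ofAdd_add]
    congr 1
    refine Prod.ext ?_ (Prod.ext ?_ ?_)
    · exact ng_mul _ _ E.i0 (gal_sqrt g E.hi) (gal_sqrt h E.hi)
    · exact ng_mul _ _ E.t20 (gal_sqrt g E.ht) (gal_sqrt h E.ht)
    · funext r
      exact ng_mul _ _ (E.s0 hR r.2) (gal_sqrt g (E.hs r r.2)) (gal_sqrt h (E.hs r r.2))

theorem D2.Θ_eq (g : Gal(L/ℚ)) : Multiplicative.toAdd (E.Θ hR g) =
    (ng g E.i, ng g (E.t ^ 2), fun r : R => ng g (E.s r)) := rfl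

include hR in
/-- Frobenius elements with given symbols -/
theorem D2.exists_frob (a b : ZMod 2) (v : R → ZMod 2) (c : ℕ) (hc : c = 1 ∨ c = 2) (B : ℕ) :
    ∃ (p : ℕ) (_ : Fact p.Prime) (φ : 𝓞 L →+* AlgebraicClosure (ZMod p)) (g : Gal(L/ℚ)),
      HasFrob p φ g ∧ B < p ∧ p % 3 = c ∧ ng g E.i = a ∧ ng g (E.t ^ 2) = b ∧
        ∀ r : R, ng g (E.s r) = v r := by
  classical
  obtain ⟨D₁, hD₁, htor⟩ := torsor L
  obtain ⟨p, hpB, hp, hp3, hpa, hpb, hpr⟩ := exists_prime_data hR (a = 0) (b = 0) c hc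
    (fun r => ∃ h : r ∈ R, v ⟨r, h⟩ = 0) (max B (D₁ + 7 + ∏ r ∈ R, r))
  have h1 : B < p := lt_of_le_of_lt (le_max_left _ _) hpB
  have h2 : D₁ + 7 + ∏ r ∈ R, r < p := lt_of_le_of_lt (le_max_right _ _) hpB
  haveI : Fact p.Prime := ⟨hp⟩
  have ht := htor p fun h => absurd (Nat.le_of_dvd hD₁ h) (by omega)
  obtain ⟨φ⟩ := nonempty_hom ht
  obtain ⟨g, hg⟩ := Pool.Agent.W401.Cheb.exists_frob ht φ
  have hp2 : p ≠ 2 := by omega
  have n1 : (((-1 : ℤ) : ℤ) : ZMod p) ≠ 0 := by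
    push_cast
    exact neg_ne_zero.2 one_ne_zero
  have n7 : (((-7 : ℤ) : ℤ) : ZMod p) ≠ 0 := by
    intro h
    rw [ZMod.intCast_zmod_eq_zero_iff_dvd] at h
    have h5 : p ∣ 7 := by
      have := Int.natAbs_dvd_natAbs.2 h
      simpa using this
    exact absurd (Nat.le_of_dvd (by norm_num) h5) (by omega)
  have nr : ∀ r ∈ R, (((r : ℤ) : ℤ) : ZMod p) ≠ 0 := by
    intro r hr h
    rw [ZMod.intCast_zmod_eq_zero_iff_dvd] at h
    have h5 : p ∣ r := by exact_mod_cast h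
    have h6 := Nat.le_of_dvd (hR r hr).1.pos h5
    have h7 : r ≤ ∏ r ∈ R, r := Nat.le_of_dvd (Finset.prod_pos fun q hq => (hR q hq).1.pos)
      (Finset.dvd_prod_of_mem (fun q => q) hr)
    omega
  refine ⟨p, ⟨hp⟩, φ, g, hg, h1, hp3, ?_, ?_, ?_⟩
  · apply zmod2
    rw [ng_zero, ← frob_sqrt hg E.hi hp2 n1, ← hpa]
    push_cast
    rw [ZMod.exists_sq_eq_neg_one_iff]
    have := hp.eq_two_or_odd.resolve_left hp2
    omega
  · apply zmod2
    rw [ng_zero, ← frob_sqrt hg E.ht hp2 n7, ← hpb]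
    push_cast
    exact Iff.rfl
  · intro r
    apply zmod2
    rw [ng_zero, ← frob_sqrt hg (E.hs r r.2) hp2 (nr r r.2)]
    have h8 := hpr r r.2
    push_cast
    rw [h8]
    exact ⟨fun ⟨_, h⟩ => h, fun h => ⟨r.2, h⟩⟩

include hR in
theorem D2.exists_gal (a b : ZMod 2) (v : R → ZMod 2) : ∃ g : Gal(L/ℚ), ng g E.i = a ∧
    ng g (E.t ^ 2) = b ∧ ∀ r : R, ng g (E.s r) = v r := by
  obtain ⟨p, hp, φ, g, -, -, -, h⟩ := E.exists_frob hR a b v 1 (Or.inl rfl) 0
  exact ⟨g, h⟩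

theorem D2.Θ_surj : Function.Surjective (E.Θ hR) := by
  intro x
  obtain ⟨g, h1, h2, h3⟩ := E.exists_gal hR (Multiplicative.toAdd x).1 (Multiplicative.toAdd x).2.1
    (Multiplicative.toAdd x).2.2
  refine ⟨g, ?_⟩
  apply Multiplicative.toAdd.injective
  rw [E.Θ_eq hR]
  exact Prod.ext h1 (Prod.ext h2 (funext h3))

/-- the automorphisms fixing `√-1` and `√-7` -/
def D2.H0 : Subgroup Gal(L/ℚ) where
  carrier := {g | g E.i = E.i ∧ g (E.t ^ 2) = E.t ^ 2}
  mul_mem' := by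
    rintro a b ⟨a1, a2⟩ ⟨b1, b2⟩
    refine ⟨?_, ?_⟩
    · show a (b _) = _; rw [b1, a1]
    · show a (b _) = _; rw [b2, a2]
  one_mem' := ⟨rfl, rfl⟩
  inv_mem' := by
    rintro a ⟨a1, a2⟩
    refine ⟨?_, ?_⟩
    · have := congrArg (a⁻¹ : Gal(L/ℚ)) a1
      rw [← AlgEquiv.mul_apply, inv_mul_cancel, AlgEquiv.one_apply] at this
      exact this.symm
    · have := congrArg (a⁻¹ : Gal(L/ℚ)) a2
      rw [← AlgEquiv.mul_apply, inv_mul_cancel, AlgEquiv.one_apply] at this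
      exact this.symm

theorem D2.mem_H0 {g : Gal(L/ℚ)} : g ∈ E.H0 ↔ g E.i = E.i ∧ g (E.t ^ 2) = E.t ^ 2 := Iff.rfl

theorem D2.t_pm {g : Gal(L/ℚ)} (h : g (E.t ^ 2) = E.t ^ 2) : g E.t = E.t ∨ g E.t = -E.t := by
  rw [map_pow] at h
  exact sq_eq_sq_iff_eq_or_eq_neg.1 h

/-- the homomorphism to the symbols -/
noncomputable def D2.Ψ : E.H0 →* Multiplicative ((R → ZMod 2) × ZMod 2) where
  toFun g := Multiplicative.ofAdd (fun r : R => ng g.1 (E.s r), ng g.1 E.t)
  map_one' := by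
    have h : ∀ x : L, ng (1 : Gal(L/ℚ)) x = 0 := fun x => by unfold ng; simp
    rw [← ofAdd_zero]
    congr 1
    simp only [OneMemClass.coe_one, h]
    rfl
  map_mul' g h := by
    rw [← ofAdd_add]
    congr 1
    refine Prod.ext ?_ ?_
    · funext r
      exact ng_mul _ _ (E.s0 hR r.2) (gal_sqrt g.1 (E.hs r r.2)) (gal_sqrt h.1 (E.hs r r.2))
    · exact ng_mul _ _ E.t0 (E.t_pm g.2.2) (E.t_pm h.2.2)

theorem D2.Ψ_eq (g : E.H0) : Multiplicative.toAdd (E.Ψ hR g) =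
    (fun r : R => ng g.1 (E.s r), ng g.1 E.t) := rfl

theorem neg_ne {x : L} (hx : x ≠ 0) : -x ≠ x := by
  intro h0
  apply hx
  have : (2 : L) * x = 0 := by linear_combination -h0
  rcases mul_eq_zero.1 this with h5 | h5
  · norm_num at h5
  · exact h5

theorem ng_one {g : Gal(L/ℚ)} {x : L} (hx : x ≠ 0) (h : g x = x ∨ g x = -x) :
    ng g x = 1 ↔ g x = -x := by
  unfold ng
  rcases h with h | h
  · rw [if_pos h, h]
    exact ⟨fun h1 => absurd h1 (by decide), fun h1 => absurd h1.symm (neg_ne hx)⟩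
  · rw [if_neg (by rw [h]; exact neg_ne hx)]
    exact ⟨fun _ => h, fun _ => rfl⟩

include hR in
/-- an automorphism that fixes the square roots and moves the fourth root: a commutator -/
theorem D2.exists_comm : ∃ c : Gal(L/ℚ), (∃ g₁ g₂ : Gal(L/ℚ), c = (g₂ * g₁)⁻¹ * (g₁ * g₂)) ∧
    c E.i = E.i ∧ c (E.t ^ 2) = E.t ^ 2 ∧ (∀ r : R, ng c (E.s r) = 0) ∧ c E.t = -E.t := by
  obtain ⟨g₁, a1, a2, a3⟩ := E.exists_gal hR 0 1 fun _ => 0
  obtain ⟨g₂, b1, b2, b3⟩ := E.exists_gal hR 1 0 fun _ => 0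
  rw [ng_zero] at a1 b2
  rw [ng_one E.t20 (gal_sqrt g₁ E.ht)] at a2
  rw [ng_one E.i0 (gal_sqrt g₂ E.hi)] at b1
  have h1 : (g₁ E.t) ^ 2 = (E.i * E.t) ^ 2 := by
    rw [← map_pow, a2, mul_pow, E.hi]
    push_cast
    ring
  have h2 := E.t_pm b2
  have key : (g₁ * g₂) E.t = -((g₂ * g₁) E.t) := by
    rw [AlgEquiv.mul_apply, AlgEquiv.mul_apply]
    rcases sq_eq_sq_iff_eq_or_eq_neg.1 h1 with h3 | h3 <;> rcases h2 with h4 | h4
    · rw [h4, h3, map_mul, b1, h4]; ring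
    · rw [h4, map_neg, h3, map_mul, b1, h4]; ring
    · rw [h4, h3, map_neg, map_mul, b1, h4]; ring
    · rw [h4, map_neg, h3, map_neg, map_mul, b1, h4]; ring
  have hΘ : E.Θ hR ((g₂ * g₁)⁻¹ * (g₁ * g₂)) = 1 := by
    rw [map_mul, map_inv, map_mul, map_mul, mul_comm (E.Θ hR g₁), inv_mul_cancel]
  have h5 : Multiplicative.toAdd (E.Θ hR ((g₂ * g₁)⁻¹ * (g₁ * g₂))) = 0 := by rw [hΘ]; rfl
  rw [E.Θ_eq hR] at h5
  have e1 := congrArg Prod.fst h5
  have e2 := congrArg Prod.fst (congrArg Prod.snd h5)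
  have e3 := congrArg Prod.snd (congrArg Prod.snd h5)
  simp only at e1 e2 e3
  refine ⟨_, ⟨g₁, g₂, rfl⟩, ng_zero.1 e1, ng_zero.1 e2, fun r => congrFun e3 r, ?_⟩
  rw [AlgEquiv.mul_apply, key, map_neg, ← AlgEquiv.mul_apply, inv_mul_cancel, AlgEquiv.one_apply]

theorem D2.Ψ_surj : Function.Surjective (E.Ψ hR) := by
  intro x
  obtain ⟨g, h1, h2, h3⟩ := E.exists_gal hR 0 0 (Multiplicative.toAdd x).1
  rw [ng_zero] at h1 h2
  obtain ⟨c, -, c1, c2, c3, c4⟩ := E.exists_comm hR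
  have hc : ng c E.t = 1 := (ng_one E.t0 (E.t_pm c2)).2 c4
  by_cases hx : ng g E.t = (Multiplicative.toAdd x).2
  · refine ⟨⟨g, h1, h2⟩, ?_⟩
    apply Multiplicative.toAdd.injective
    rw [E.Ψ_eq hR]
    exact Prod.ext (funext h3) hx
  · refine ⟨⟨g, h1, h2⟩ * ⟨c, c1, c2⟩, ?_⟩
    rw [map_mul]
    apply Multiplicative.toAdd.injective
    rw [toAdd_mul, E.Ψ_eq hR, E.Ψ_eq hR]
    refine Prod.ext (funext fun r => ?_) ?_
    · show ng g (E.s r) + ng c (E.s r) = _
      rw [h3 r, c3 r, add_zero]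
    · show ng g E.t + ng c E.t = _
      rw [hc]
      revert hx
      generalize ng g E.t = y
      generalize (Multiplicative.toAdd x).2 = z
      revert y z
      decide

/-- the Frobenius set -/
def D2.CC (Qi : (R → ZMod 2) → Prop) (Qs : (R → ZMod 2) × ZMod 2 → Prop) : Set Gal(L/ℚ) :=
  {g | g E.i = E.i ∧ (¬ g (E.t ^ 2) = E.t ^ 2 → Qi fun r => ng g (E.s r)) ∧
    (g (E.t ^ 2) = E.t ^ 2 → Qs (fun r => ng g (E.s r), ng g E.t))}

theorem D2.card_G : Nat.card Gal(L/ℚ) = Nat.card (E.Θ hR).ker * 2 ^ (R.card + 2) := by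
  have h := card_fib (E.Θ hR) (fun _ => True) fun b _ => E.Θ_surj hR b
  have h1 : Nat.card {a : Gal(L/ℚ) // True} = Nat.card Gal(L/ℚ) :=
    Nat.card_congr (Equiv.subtypeUnivEquiv fun _ => trivial)
  have h2 : Nat.card {b : Multiplicative (ZMod 2 × ZMod 2 × (R → ZMod 2)) // True} =
      2 ^ (R.card + 2) := by
    have : Nat.card (ZMod 2 × ZMod 2 × (R → ZMod 2)) = 2 ^ (R.card + 2) := by
      rw [Nat.card_prod, Nat.card_prod, Nat.card_fun]
      simp
      ring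
    rw [← this]
    exact Nat.card_congr (Equiv.subtypeUnivEquiv fun _ => trivial)
  rw [← h1, h, h2]

theorem D2.card_H0 : Nat.card E.H0 = Nat.card (E.Θ hR).ker * 2 ^ R.card := by
  have h := card_fib (E.Θ hR) (fun b => (Multiplicative.toAdd b).1 = 0 ∧
    (Multiplicative.toAdd b).2.1 = 0) fun b _ => E.Θ_surj hR b
  have h1 : Nat.card {a : Gal(L/ℚ) // (Multiplicative.toAdd (E.Θ hR a)).1 = 0 ∧
      (Multiplicative.toAdd (E.Θ hR a)).2.1 = 0} = Nat.card E.H0 := by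
    refine Nat.card_congr (Equiv.subtypeEquivRight fun g => ?_)
    rw [E.Θ_eq hR]
    exact and_congr ng_zero ng_zero
  have h2 : Nat.card {b : Multiplicative (ZMod 2 × ZMod 2 × (R → ZMod 2)) //
      (Multiplicative.toAdd b).1 = 0 ∧ (Multiplicative.toAdd b).2.1 = 0} = 2 ^ R.card := by
    have : Nat.card (R → ZMod 2) = 2 ^ R.card := by
      rw [Nat.card_fun]
      simp
    rw [← this]
    exact Nat.card_congr
      { toFun := fun b => (Multiplicative.toAdd b.1).2.2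
        invFun := fun v => ⟨Multiplicative.ofAdd (0, 0, v), rfl, rfl⟩
        left_inv := fun b => by
          apply Subtype.ext
          apply Multiplicative.toAdd.injective
          exact Prod.ext b.2.1.symm (Prod.ext b.2.2.symm rfl)
        right_inv := fun v => rfl }
  rw [← h1, h, h2]

theorem D2.card_H0' : Nat.card E.H0 = Nat.card (E.Ψ hR).ker * 2 ^ (R.card + 1) := by
  have h := card_fib (E.Ψ hR) (fun _ => True) fun b _ => E.Ψ_surj hR b
  have h1 : Nat.card {a : E.H0 // True} = Nat.card E.H0 :=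
    Nat.card_congr (Equiv.subtypeUnivEquiv fun _ => trivial)
  have h2 : Nat.card {b : Multiplicative ((R → ZMod 2) × ZMod 2) // True} =
      2 ^ (R.card + 1) := by
    have : Nat.card ((R → ZMod 2) × ZMod 2) = 2 ^ (R.card + 1) := by
      rw [Nat.card_prod, Nat.card_fun]
      simp
      ring
    rw [← this]
    exact Nat.card_congr (Equiv.subtypeUnivEquiv fun _ => trivial)
  rw [← h1, h, h2]

theorem D2.card_CI (Qi : (R → ZMod 2) → Prop) :
    Nat.card {g : Gal(L/ℚ) // g E.i = E.i ∧ ¬ g (E.t ^ 2) = E.t ^ 2 ∧ Qi fun r => ng g (E.s r)} =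
      Nat.card (E.Θ hR).ker * Nat.card {v // Qi v} := by
  have h := card_fib (E.Θ hR) (fun b => (Multiplicative.toAdd b).1 = 0 ∧
    ¬ (Multiplicative.toAdd b).2.1 = 0 ∧ Qi (Multiplicative.toAdd b).2.2) fun b _ => E.Θ_surj hR b
  have h1 : Nat.card {a : Gal(L/ℚ) // (Multiplicative.toAdd (E.Θ hR a)).1 = 0 ∧
      ¬ (Multiplicative.toAdd (E.Θ hR a)).2.1 = 0 ∧ Qi (Multiplicative.toAdd (E.Θ hR a)).2.2} =
      Nat.card {g : Gal(L/ℚ) // g E.i = E.i ∧ ¬ g (E.t ^ 2) = E.t ^ 2 ∧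
        Qi fun r => ng g (E.s r)} := by
    refine Nat.card_congr (Equiv.subtypeEquivRight fun g => ?_)
    rw [E.Θ_eq hR]
    exact and_congr ng_zero (and_congr (not_congr ng_zero) Iff.rfl)
  rw [← h1, h]
  congr 1
  exact Nat.card_congr
    { toFun := fun b => ⟨(Multiplicative.toAdd b.1).2.2, b.2.2.2⟩
      invFun := fun v => ⟨Multiplicative.ofAdd (0, 1, v.1), rfl, by
        show ¬ (1 : ZMod 2) = 0
        decide, v.2⟩
      left_inv := fun b => by
        apply Subtype.ext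
        apply Multiplicative.toAdd.injective
        refine Prod.ext b.2.1.symm (Prod.ext ?_ rfl)
        show (1 : ZMod 2) = _
        have h2 := b.2.2.1
        revert h2
        generalize (Multiplicative.toAdd b.1).2.1 = z
        revert z
        decide
      right_inv := fun v => rfl }

theorem D2.card_CS (Qs : (R → ZMod 2) × ZMod 2 → Prop) :
    Nat.card {g : Gal(L/ℚ) // (g E.i = E.i ∧ g (E.t ^ 2) = E.t ^ 2) ∧
      Qs (fun r => ng g (E.s r), ng g E.t)} = Nat.card (E.Ψ hR).ker * Nat.card {v // Qs v} := by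
  have h := card_fib (E.Ψ hR) (fun b => Qs (Multiplicative.toAdd b)) fun b _ => E.Ψ_surj hR b
  have h1 : Nat.card {a : E.H0 // Qs (Multiplicative.toAdd (E.Ψ hR a))} =
      Nat.card {g : Gal(L/ℚ) // (g E.i = E.i ∧ g (E.t ^ 2) = E.t ^ 2) ∧
        Qs (fun r => ng g (E.s r), ng g E.t)} := by
    exact Nat.card_congr
      { toFun := fun a => ⟨a.1.1, a.1.2, a.2⟩
        invFun := fun a => ⟨⟨a.1, a.2.1⟩, a.2.2⟩
        left_inv := fun a => rfl
        right_inv := fun a => rfl }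
  rw [← h1, h]
  rfl

theorem card_split2 {G : Type} [Finite G] (A B C D : G → Prop) :
    Nat.card {g : G // A g ∧ (¬ B g → C g) ∧ (B g → D g)} =
      Nat.card {g : G // A g ∧ ¬ B g ∧ C g} + Nat.card {g : G // (A g ∧ B g) ∧ D g} := by
  classical
  rw [← Nat.card_sum]
  refine Nat.card_congr
    { toFun := fun g => if h : B g.1 then Sum.inr ⟨g.1, ⟨g.2.1, h⟩, g.2.2.2 h⟩
        else Sum.inl ⟨g.1, g.2.1, h, g.2.2.1 h⟩
      invFun := Sum.elim (fun g => ⟨g.1, g.2.1, fun _ => g.2.2.2, fun h => absurd h g.2.2.1⟩)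
        fun g => ⟨g.1, g.2.1.1, fun h => absurd g.2.1.2 h, fun _ => g.2.2⟩
      left_inv := fun g => by
        by_cases h : B g.1
        · simp only [dif_pos h]; rfl
        · simp only [dif_neg h]; rfl
      right_inv := ?_ }
  rintro (g | g)
  · exact dif_neg g.2.2.1
  · exact dif_pos g.2.1.2

include hR in
/-- **the density of the Frobenius set** -/
theorem D2.ratio (Qi : (R → ZMod 2) → Prop) (Qs : (R → ZMod 2) × ZMod 2 → Prop) :
    (Nat.card (E.CC Qi Qs) : ℝ) / (Nat.card Gal(L/ℚ) : ℝ) =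
      (Nat.card {v // Qi v} : ℝ) / 2 ^ (R.card + 2) + (Nat.card {v // Qs v} : ℝ) / 2 ^ (R.card + 3) := by
  classical
  have h1 := E.card_G hR
  have h2 := E.card_H0 hR
  have h3 := E.card_H0' hR
  have h4 := E.card_CI hR Qi
  have h5 := E.card_CS hR Qs
  have h6 : Nat.card (E.CC Qi Qs) = Nat.card {g : Gal(L/ℚ) // g E.i = E.i ∧
      ¬ g (E.t ^ 2) = E.t ^ 2 ∧ Qi fun r => ng g (E.s r)} +
      Nat.card {g : Gal(L/ℚ) // (g E.i = E.i ∧ g (E.t ^ 2) = E.t ^ 2) ∧
        Qs (fun r => ng g (E.s r), ng g E.t)} :=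
    card_split2 (fun g : Gal(L/ℚ) => g E.i = E.i) (fun g => g (E.t ^ 2) = E.t ^ 2)
      (fun g => Qi fun r => ng g (E.s r)) fun g => Qs (fun r => ng g (E.s r), ng g E.t)
  have hk : (0 : ℝ) < (Nat.card (E.Θ hR).ker : ℝ) := by exact_mod_cast Nat.card_pos
  have h7 : (Nat.card (E.Ψ hR).ker : ℝ) * 2 = (Nat.card (E.Θ hR).ker : ℝ) := by
    have h8 : Nat.card (E.Ψ hR).ker * 2 ^ (R.card + 1) = Nat.card (E.Θ hR).ker * 2 ^ R.card := by
      rw [← h3, h2]
    have h9 : (Nat.card (E.Ψ hR).ker * 2) * 2 ^ R.card = Nat.card (E.Θ hR).ker * 2 ^ R.card := by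
      rw [← h8, pow_succ]
      ring
    have h10 := Nat.eq_of_mul_eq_mul_right (pow_pos (by norm_num) _) h9
    exact_mod_cast h10
  rw [h6, h4, h5, h1]
  push_cast
  rw [← h7]
  have hk' : (0 : ℝ) < (Nat.card (E.Ψ hR).ker : ℝ) := by linarith
  field_simp
  ring

end

end Pool.Agent.V8H64.X49
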